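import Pool.Agent.Lib.H17.VR.Eleven2

/-!
# Vietoris-Rips surjectivity and triangulations of the cube: radius at most 7
-/

namespace Pool.Agent.Results.MP_0896c7_co.SmallRadius

open Pool.Agent.Lib.H17.VR

/-- The values `0, 1, 3, 4, 7, 8, 11, 12` for `r = 0, …, 7`. -/
def S : ℕ → ℕ
  | 0 => 0
  | 1 => 1
  | 2 => 3
  | 3 => 4
  | 4 => 7
  | 5 => 8
  | 6 => 11
  | _ => 12

theorem ex_S (j : ℕ) (hj : j ≤ 7) : Ex (S j) j := by
  have h1 : Ex 1 1 := Ex.of_le le_rfl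
  interval_cases j
  · exact Ex.of_le le_rfl
  · exact h1
  · exact ex_3_2
  · exact ex_3_2.prod h1
  · exact ex_7_4
  · exact ex_7_4.prod h1
  · exact ex_11_6
  · exact ex_11_6.prod h1

theorem ex_mul (k : ℕ) : Ex (11 * k) (6 * k) := by
  induction k with
  | zero => exact Ex.of_le le_rfl
  | succ k ih => exact ih.prod ex_11_6

theorem ex_gen (r n : ℕ) (h : n ≤ 11 * (r / 6) + S (r % 6)) : Ex n r := by
  have h1 := (ex_mul (r / 6)).prod (ex_S (r % 6) (by omega))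
  rw [Nat.div_add_mod] at h1
  exact h1.mono_dim h

theorem surj_le (r n : ℕ) (hr : r ≤ 7) (h : IsSurj n r) : n ≤ S r := by
  rcases Nat.eq_zero_or_pos n with rfl | hn
  · exact Nat.zero_le _
  have h1 := surj_lt hn h
  have h2 : n + 1 = 2 * r → 2 ≤ r → 4 ∣ 2 * r := by
    intro h2 hr2
    obtain ⟨H, hH⟩ := surj_hadamard h2 h
    exact four_dvd hr2 hH
  interval_cases r <;> simp only [S] <;> omega

/-- **Theorem.**  Let `IsSurj n r` say that `f_n : VR(Q_n; r) → [0,1]^n` is surjective and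
`HasTri n r` that `[0,1]^n` has a triangulation by simplices of diameter at most `r`.

(1) For `r ≤ 7` and every `n`: `IsSurj n r`, `HasTri n r` and `n ≤ S r` are equivalent.
(2) For every `r` and `n ≤ 11 ⌊r/6⌋ + S (r mod 6)`, `HasTri n r`.
(3) For every `r` and `n ≥ 1`, `IsSurj n r` implies `n ≤ 2r - 1`.
(4) If `n = 2r - 1` and `IsSurj n r`, then there is a Hadamard matrix of order `2r`. -/
theorem result :
    (∀ r n : ℕ, r ≤ 7 → ((IsSurj n r ↔ HasTri n r) ∧ (IsSurj n r ↔ n ≤ S r))) ∧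
    (∀ r n : ℕ, n ≤ 11 * (r / 6) + S (r % 6) → HasTri n r) ∧
    (∀ r n : ℕ, 1 ≤ n → IsSurj n r → n + 1 ≤ 2 * r) ∧
    (∀ r n : ℕ, n + 1 = 2 * r → IsSurj n r →
      ∃ H : Matrix (Fin (2 * r)) (Fin (2 * r)) ℤ, H.IsHadamard) := by
  refine ⟨fun r n hr => ?_, fun r n h => (ex_gen r n h).hasTri, fun r n hn h => surj_lt hn h,
    fun r n hn h => surj_hadamard hn h⟩
  have h1 : n ≤ S r → HasTri n r := fun h => ((ex_S r hr).mono_dim h).hasTri
  exact ⟨⟨fun h => h1 (surj_le r n hr h), fun h => h.isSurj⟩,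
    ⟨fun h => surj_le r n hr h, fun h => (h1 h).isSurj⟩⟩

end Pool.Agent.Results.MP_0896c7_co.SmallRadius
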